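import Mathlib

set_option autoImplicit false

open Finset

namespace Pool.Agent.Results.MP_5122c5_co.Threshold

/-! ### The theorem of Erdős and Gallai -/

section EG

variable {V : Type} [Fintype V] [DecidableEq V]

/-- The inequalities of Erdős and Gallai, for all sets of vertices. -/
def EG (a : V → ℕ) : Prop :=
  ∀ S : Finset V, ∑ v ∈ S, a v ≤ S.card * (S.card - 1) + ∑ v ∈ Sᶜ, min S.card (a v)

omit [Fintype V] in
lemma sum_split (a : V → ℕ) (x y : V) (hxy : x ≠ y) (hx : 0 < a x) (hy : 0 < a y)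
    (S : Finset V) :
    ∑ v ∈ S, a v = ∑ v ∈ S, (if v = x ∨ v = y then a v - 1 else a v) +
      (if x ∈ S then 1 else 0) + (if y ∈ S then 1 else 0) := by
  have h : ∀ v, a v = (if v = x ∨ v = y then a v - 1 else a v) + (if v = x then 1 else 0) +
      (if v = y then 1 else 0) := by
    intro v
    by_cases h1 : v = x
    · subst h1
      rw [if_pos (Or.inl rfl), if_pos rfl, if_neg hxy]; omega
    · by_cases h2 : v = y
      · subst h2
        rw [if_pos (Or.inr rfl), if_neg h1, if_pos rfl]; omega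
      · rw [if_neg (by tauto), if_neg h1, if_neg h2]; omega
  calc ∑ v ∈ S, a v = ∑ v ∈ S, ((if v = x ∨ v = y then a v - 1 else a v) +
        (if v = x then 1 else 0) + (if v = y then 1 else 0)) :=
        Finset.sum_congr rfl fun v _ => h v
    _ = _ := by
        rw [sum_add_distrib, sum_add_distrib, Finset.sum_ite_eq', Finset.sum_ite_eq']

omit [Fintype V] in
lemma sum_min_split (a : V → ℕ) (x y : V) (hxy : x ≠ y) (hx : 0 < a x) (hy : 0 < a y)
    (S : Finset V) (k : ℕ) :
    ∑ v ∈ S, min k (a v) = ∑ v ∈ S, min k (if v = x ∨ v = y then a v - 1 else a v) +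
      (if x ∈ S then (if a x ≤ k then 1 else 0) else 0) +
      (if y ∈ S then (if a y ≤ k then 1 else 0) else 0) := by
  have h : ∀ v, min k (a v) = min k (if v = x ∨ v = y then a v - 1 else a v) +
      (if v = x then (if a x ≤ k then 1 else 0) else 0) +
      (if v = y then (if a y ≤ k then 1 else 0) else 0) := by
    intro v
    by_cases h1 : v = x
    · subst h1
      rw [if_pos (Or.inl rfl), if_pos rfl, if_neg hxy]; split_ifs <;> omega
    · by_cases h2 : v = y
      · subst h2
        rw [if_pos (Or.inr rfl), if_neg h1, if_pos rfl]; split_ifs <;> omega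
      · rw [if_neg (by tauto), if_neg h1, if_neg h2]; omega
  calc ∑ v ∈ S, min k (a v) = ∑ v ∈ S, (min k (if v = x ∨ v = y then a v - 1 else a v) +
        (if v = x then (if a x ≤ k then 1 else 0) else 0) +
        (if v = y then (if a y ≤ k then 1 else 0) else 0)) :=
        Finset.sum_congr rfl fun v _ => h v
    _ = _ := by
        rw [sum_add_distrib, sum_add_distrib, Finset.sum_ite_eq', Finset.sum_ite_eq']

/-- The reduction step preserves the inequalities. -/
lemma eg_step (a : V → ℕ) (hN : Even (∑ v, a v)) (h : EG a) (x y : V) (hxy : x ≠ y)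
    (hx : ∀ v, a v ≤ a x) (hy : 0 < a y) :
    EG (fun v => if v = x ∨ v = y then a v - 1 else a v) := by
  intro S
  have hx0 : 0 < a x := lt_of_lt_of_le hy (hx y)
  have e1 := sum_split a x y hxy hx0 hy S
  have e2 := sum_min_split a x y hxy hx0 hy Sᶜ S.card
  have hS := h S
  simp only [mem_compl] at e2
  set k := S.card with hk
  set A' := ∑ v ∈ S, (if v = x ∨ v = y then a v - 1 else a v) with hA'
  set B' := ∑ v ∈ Sᶜ, min k (if v = x ∨ v = y then a v - 1 else a v) with hB'
  show A' ≤ k * (k - 1) + B'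
  by_cases hxS : x ∈ S
  · rw [if_pos hxS] at e1
    rw [if_neg (not_not.mpr hxS)] at e2
    by_cases hyS : y ∈ S
    · rw [if_pos hyS] at e1
      rw [if_neg (not_not.mpr hyS)] at e2
      omega
    · rw [if_neg hyS] at e1
      rw [if_pos hyS] at e2
      split_ifs at e2 <;> omega
  rw [if_neg hxS] at e1
  rw [if_pos hxS] at e2
  by_cases hz : ∃ z ∈ S, a z < a x
  · obtain ⟨z, hzS, hza⟩ := hz
    have hxz : x ∉ S.erase z := fun hh => hxS (mem_of_mem_erase hh)
    have hzx : z ≠ x := fun hh => hxS (hh ▸ hzS)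
    have hcard : (insert x (S.erase z)).card = k := by
      rw [card_insert_of_notMem hxz, card_erase_of_mem hzS, hk]
      have := card_pos.mpr ⟨z, hzS⟩
      omega
    have hcompl : (insert x (S.erase z))ᶜ = insert z (Sᶜ.erase x) := by
      ext v
      simp only [mem_compl, mem_insert, mem_erase]
      by_cases h1 : v = z
      · subst h1; simp [hzx]
      · simp [h1]
    have h1 := h (insert x (S.erase z))
    rw [hcard, hcompl, sum_insert hxz, sum_insert (by simp [hzS])] at h1
    have h2 := Finset.add_sum_erase S a hzS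
    have h3 := Finset.add_sum_erase Sᶜ (fun v => min k (a v)) (mem_compl.mpr hxS)
    by_cases hyS : y ∈ S
    · rw [if_pos hyS] at e1
      rw [if_neg (not_not.mpr hyS)] at e2
      split_ifs at e2 <;> omega
    · rw [if_neg hyS] at e1
      rw [if_pos hyS] at e2
      split_ifs at e2 <;> omega
  · push Not at hz
    have hall : ∀ z ∈ S, a z = a x := fun z hzS => le_antisymm (hx z) (hz z hzS)
    have hsum : ∑ v ∈ S, a v = k * a x := by
      rw [Finset.sum_congr rfl hall, sum_const, smul_eq_mul]
    have hA'le : A' ≤ k * a x := by rw [← hsum, e1]; omega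
    rcases Nat.lt_trichotomy (a x) k with hlt | heq | hgt
    · calc A' ≤ k * a x := hA'le
        _ ≤ k * (k - 1) := Nat.mul_le_mul_left _ (by omega)
        _ ≤ _ := Nat.le_add_right _ _
    · -- `a x = k`
      have htot : ∑ v, a v = ∑ v ∈ S, a v + ∑ v ∈ Sᶜ, a v := (Finset.sum_add_sum_compl S a).symm
      have hmin' : ∑ v ∈ Sᶜ, min k (a v) = ∑ v ∈ Sᶜ, a v :=
        Finset.sum_congr rfl fun v _ => min_eq_right (by rw [← heq]; exact hx v)
      have h3 := Finset.add_sum_erase Sᶜ a (mem_compl.mpr hxS)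
      rw [hmin'] at e2
      rw [heq] at hsum h3
      have hkk : k * (k - 1) + k = k * k := by
        rcases k with _ | k
        · rfl
        · simp only [Nat.add_sub_cancel]; ring
      rw [if_pos heq.le] at e2
      by_cases hyS : y ∈ S
      · rw [if_pos hyS] at e1
        rw [if_neg (not_not.mpr hyS)] at e2
        omega
      · rw [if_neg hyS] at e1
        rw [if_pos hyS] at e2
        have hyx : y ∈ Sᶜ.erase x := mem_erase.mpr ⟨hxy.symm, mem_compl.mpr hyS⟩
        have h4 : a y ≤ ∑ v ∈ Sᶜ.erase x, a v :=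
          Finset.single_le_sum (f := a) (fun _ _ => Nat.zero_le _) hyx
        rw [if_pos (by rw [← heq]; exact hx y)] at e2
        -- parity
        obtain ⟨q, hq⟩ := hN
        obtain ⟨p, hp⟩ := Nat.even_mul_succ_self k
        have hp' : k * k + k = p + p := by rw [← hp]; ring
        omega
    · -- `a x > k`
      rw [if_neg (by omega)] at e2
      by_cases hyS : y ∈ S
      · rw [if_pos hyS] at e1
        rw [if_neg (not_not.mpr hyS)] at e2
        omega
      · rw [if_neg hyS] at e1
        rw [if_pos hyS] at e2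
        by_cases hyk : a y ≤ k
        · rw [if_pos hyk] at e2
          by_contra hcon
          have heq : k * a x = k * (k - 1) + ∑ v ∈ Sᶜ, min k (a v) := by
            rw [hsum] at hS e1
            omega
          have h3 := Finset.add_sum_erase Sᶜ (fun v => min k (a v)) (mem_compl.mpr hxS)
          rw [min_eq_left hgt.le] at h3
          have h1 := h (insert x S)
          rw [card_insert_of_notMem hxS, sum_insert hxS, hsum, ← hk] at h1
          have hcompl : (insert x S)ᶜ = Sᶜ.erase x := by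
            ext v
            simp only [mem_compl, mem_insert, mem_erase]
            tauto
          rw [hcompl] at h1
          have hlt : ∑ v ∈ Sᶜ.erase x, k * min (k + 1) (a v) <
              ∑ v ∈ Sᶜ.erase x, (k + 1) * min k (a v) := by
            refine Finset.sum_lt_sum ?_ ⟨y, mem_erase.mpr ⟨hxy.symm, mem_compl.mpr hyS⟩, ?_⟩
            · intro v _
              rcases Nat.lt_or_ge k (a v) with h5 | h5
              · rw [min_eq_left h5, min_eq_left h5.le]; exact (mul_comm _ _).le
              · rw [min_eq_right (by omega), min_eq_right h5]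
                exact Nat.mul_le_mul_right _ (Nat.le_succ _)
            · rw [min_eq_right (by omega), min_eq_right hyk]
              exact Nat.mul_lt_mul_of_pos_right (Nat.lt_succ_self _) hy
          rw [← Finset.mul_sum, ← Finset.mul_sum] at hlt
          have hkk : k * (k - 1) + k = k * k := by
            rcases k with _ | k
            · rfl
            · simp only [Nat.add_sub_cancel]; ring
          set X := ∑ v ∈ Sᶜ.erase x, min k (a v)
          set Y := ∑ v ∈ Sᶜ.erase x, min (k + 1) (a v)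
          have h6 : k * a x = k * k + X := by omega
          have h7 : a x + k * a x ≤ (k + 1) * k + Y := by simpa using h1
          nlinarith
        · rw [if_neg hyk] at e2
          omega

/-- Adding one edge. -/
lemma add_edge (G : SimpleGraph V) (a : V → ℕ) (x y : V) (hxy : x ≠ y) (hadj : ¬ G.Adj x y)
    (h : ∀ v, (G.neighborSet v).ncard + ((if v = x then 1 else 0) + (if v = y then 1 else 0)) =
      a v) : ∃ G' : SimpleGraph V,
      (∀ u v, G'.Adj u v ↔ G.Adj u v ∨ (u = x ∧ v = y) ∨ (u = y ∧ v = x)) ∧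
      ∀ v, (G'.neighborSet v).ncard = a v := by
  let G' : SimpleGraph V :=
    { Adj := fun u v => G.Adj u v ∨ (u = x ∧ v = y) ∨ (u = y ∧ v = x)
      symm := ⟨by
        rintro u v (h | ⟨h1, h2⟩ | ⟨h1, h2⟩)
        · exact Or.inl h.symm
        · exact Or.inr (Or.inr ⟨h2, h1⟩)
        · exact Or.inr (Or.inl ⟨h2, h1⟩)⟩
      loopless := ⟨by
        rintro u (h | ⟨h1, h2⟩ | ⟨h1, h2⟩)
        · exact G.loopless.irrefl u h
        · exact hxy (h1.symm.trans h2)
        · exact hxy (h2.symm.trans h1)⟩ }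
  refine ⟨G', fun u v => Iff.rfl, fun v => ?_⟩
  by_cases hvx : v = x
  · subst hvx
    have h1 : G'.neighborSet v = insert y (G.neighborSet v) := by
      ext w
      show (G.Adj v w ∨ (v = v ∧ w = y) ∨ (v = y ∧ w = v)) ↔ w = y ∨ G.Adj v w
      constructor
      · rintro (h | ⟨_, h⟩ | ⟨h, _⟩)
        · exact Or.inr h
        · exact Or.inl h
        · exact absurd h hxy
      · rintro (h | h)
        · exact Or.inr (Or.inl ⟨rfl, h⟩)
        · exact Or.inl h
    have hnm : y ∉ G.neighborSet v := fun h => hadj h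
    rw [h1, Set.ncard_insert_of_notMem hnm (Set.toFinite _), ← h v, if_pos rfl,
      if_neg hxy]
  · by_cases hvy : v = y
    · subst hvy
      have h1 : G'.neighborSet v = insert x (G.neighborSet v) := by
        ext w
        show (G.Adj v w ∨ (v = x ∧ w = v) ∨ (v = v ∧ w = x)) ↔ w = x ∨ G.Adj v w
        constructor
        · rintro (h | ⟨h, _⟩ | ⟨_, h⟩)
          · exact Or.inr h
          · exact absurd h hvx
          · exact Or.inl h
        · rintro (h | h)
          · exact Or.inr (Or.inr ⟨rfl, h⟩)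
          · exact Or.inl h
      have hnm : x ∉ G.neighborSet v := fun h => hadj h.symm
      rw [h1, Set.ncard_insert_of_notMem hnm (Set.toFinite _), ← h v,
        if_neg hvx, if_pos rfl]
    · have h1 : G'.neighborSet v = G.neighborSet v := by
        ext w
        show (G.Adj v w ∨ (v = x ∧ w = y) ∨ (v = y ∧ w = x)) ↔ G.Adj v w
        constructor
        · rintro (h | ⟨h, _⟩ | ⟨h, _⟩)
          · exact h
          · exact absurd h hvx
          · exact absurd h hvy
        · exact Or.inl
      rw [h1, ← h v, if_neg hvx, if_neg hvy]; rfl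

/-- Deleting one edge. -/
lemma del_edge (G : SimpleGraph V) (m p : V) (hadj : G.Adj m p) :
    ∃ G' : SimpleGraph V, (∀ u v, G'.Adj u v ↔ G.Adj u v ∧ ¬ ((u = m ∧ v = p) ∨ (u = p ∧ v = m))) ∧
      ∀ v, (G'.neighborSet v).ncard + ((if v = m then 1 else 0) + (if v = p then 1 else 0)) =
        (G.neighborSet v).ncard := by
  have hmp : m ≠ p := hadj.ne
  let G' : SimpleGraph V :=
    { Adj := fun u v => G.Adj u v ∧ ¬ ((u = m ∧ v = p) ∨ (u = p ∧ v = m))
      symm := ⟨by
        rintro u v ⟨h, h'⟩
        exact ⟨h.symm, fun h2 => h' (h2.symm.imp (fun h => ⟨h.2, h.1⟩) (fun h => ⟨h.2, h.1⟩))⟩⟩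
      loopless := ⟨by
        rintro u ⟨h, _⟩
        exact G.loopless.irrefl u h⟩ }
  refine ⟨G', fun u v => Iff.rfl, fun v => ?_⟩
  by_cases hvm : v = m
  · subst hvm
    have h1 : G'.neighborSet v = G.neighborSet v \ {p} := by
      ext w
      show (G.Adj v w ∧ ¬ ((v = v ∧ w = p) ∨ (v = p ∧ w = v))) ↔ G.Adj v w ∧ w ∉ ({p} : Set V)
      rw [Set.mem_singleton_iff]
      constructor
      · rintro ⟨h, h'⟩
        exact ⟨h, fun hw => h' (Or.inl ⟨rfl, hw⟩)⟩
      · rintro ⟨h, h'⟩
        refine ⟨h, ?_⟩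
        rintro (⟨_, hw⟩ | ⟨hw, _⟩)
        · exact h' hw
        · exact hmp hw
    rw [h1, if_pos rfl, if_neg hmp]
    exact Set.ncard_sdiff_singleton_add_one (show p ∈ G.neighborSet v from hadj) (Set.toFinite _)
  · by_cases hvp : v = p
    · subst hvp
      have h1 : G'.neighborSet v = G.neighborSet v \ {m} := by
        ext w
        show (G.Adj v w ∧ ¬ ((v = m ∧ w = v) ∨ (v = v ∧ w = m))) ↔ G.Adj v w ∧ w ∉ ({m} : Set V)
        rw [Set.mem_singleton_iff]
        constructor
        · rintro ⟨h, h'⟩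
          exact ⟨h, fun hw => h' (Or.inr ⟨rfl, hw⟩)⟩
        · rintro ⟨h, h'⟩
          refine ⟨h, ?_⟩
          rintro (⟨hw, _⟩ | ⟨_, hw⟩)
          · exact hvm hw
          · exact h' hw
      rw [h1, if_neg hvm, if_pos rfl, zero_add]
      exact Set.ncard_sdiff_singleton_add_one (show m ∈ G.neighborSet v from hadj.symm)
        (Set.toFinite _)
    · have h1 : G'.neighborSet v = G.neighborSet v := by
        ext w
        show (G.Adj v w ∧ ¬ ((v = m ∧ w = p) ∨ (v = p ∧ w = m))) ↔ G.Adj v w
        constructor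
        · exact fun h => h.1
        · intro h
          refine ⟨h, ?_⟩
          rintro (⟨hw, _⟩ | ⟨hw, _⟩)
          · exact hvm hw
          · exact hvp hw
      rw [h1, if_neg hvm, if_neg hvp]; rfl

/-- The theorem of Erdős and Gallai. -/
theorem erdos_gallai (N : ℕ) : ∀ a : V → ℕ, ∑ v, a v = N → Even (∑ v, a v) → EG a →
    ∃ G : SimpleGraph V, ∀ v, (G.neighborSet v).ncard = a v := by
  induction N using Nat.strong_induction_on with
  | _ N ih =>
    intro a haN heven h
    by_cases h0 : ∀ v, a v = 0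
    · refine ⟨⊥, fun v => ?_⟩
      rw [h0 v, Set.ncard_eq_zero (Set.toFinite _)]
      ext w
      simp
    push Not at h0
    obtain ⟨v0, hv0⟩ := h0
    obtain ⟨x, -, hx⟩ := Finset.exists_max_image univ a ⟨v0, mem_univ _⟩
    have hx' : ∀ v, a v ≤ a x := fun v => hx v (mem_univ v)
    have hx0 : 0 < a x := lt_of_lt_of_le (Nat.pos_of_ne_zero hv0) (hx' v0)
    -- the positive vertices different from `x`
    set P : Finset V := univ.filter fun w => w ≠ x ∧ 0 < a w with hP
    have hPcard : a x ≤ P.card := by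
      have h1 := h {x}
      rw [card_singleton, sum_singleton] at h1
      have h2 : ∑ v ∈ ({x} : Finset V)ᶜ, min 1 (a v) ≤ P.card := by
        rw [hP, card_filter, ← Finset.sum_filter_add_sum_filter_not univ (fun v => v ≠ x)
          (fun v => if v ≠ x ∧ 0 < a v then 1 else 0)]
        refine le_trans ?_ (Nat.le_add_right _ _)
        have h3 : ({x} : Finset V)ᶜ = univ.filter fun v => v ≠ x := by
          ext v; simp
        rw [h3]
        refine Finset.sum_le_sum fun v hv => ?_
        have hvx := (mem_filter.mp hv).2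
        by_cases hav : 0 < a v
        · rw [if_pos ⟨hvx, hav⟩]; exact min_le_left _ _
        · rw [if_neg (fun hh => hav hh.2)]
          omega
      omega
    have hPne : P.Nonempty := card_pos.mp (by omega)
    obtain ⟨y, hyP, hy⟩ := Finset.exists_min_image P a hPne
    obtain ⟨hyx, hy0⟩ := (mem_filter.mp hyP).2
    have hxy : x ≠ y := hyx.symm
    have hymin : ∀ v, v ≠ x → 0 < a v → a y ≤ a v := fun v hv hav =>
      hy v (mem_filter.mpr ⟨mem_univ _, hv, hav⟩)
    set a' : V → ℕ := fun v => if v = x ∨ v = y then a v - 1 else a v with ha'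
    have hsum := sum_split a x y hxy hx0 hy0 univ
    rw [if_pos (mem_univ _), if_pos (mem_univ _)] at hsum
    have hEG' : EG a' := eg_step a heven h x y hxy hx' hy0
    have hsum' : ∑ v, a v = ∑ v, a' v + 1 + 1 := hsum
    obtain ⟨G', hG'⟩ := ih (∑ v, a' v) (by omega) a' rfl (by
      obtain ⟨q, hq⟩ := heven
      exact ⟨q - 1, by omega⟩) hEG'
    have haa' : ∀ v, a' v + ((if v = x then 1 else 0) + (if v = y then 1 else 0)) = a v := by
      intro v
      simp only [ha']
      by_cases h1 : v = x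
      · subst h1
        rw [if_pos (Or.inl rfl), if_pos rfl, if_neg hxy]; omega
      · by_cases h2 : v = y
        · subst h2
          rw [if_pos (Or.inr rfl), if_neg h1, if_pos rfl]; omega
        · rw [if_neg (by tauto), if_neg h1, if_neg h2]; omega
    by_cases hadj : G'.Adj x y
    swap
    · obtain ⟨G2, -, hG2⟩ := add_edge G' a x y hxy hadj fun v => by rw [hG' v]; exact haa' v
      exact ⟨G2, hG2⟩
    -- a vertex `m` which is not adjacent to `x`
    have hax : (G'.neighborSet x).ncard + 1 = a x := by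
      rw [hG' x]
      have := haa' x
      rw [if_pos rfl, if_neg hxy] at this
      exact this
    have hay : (G'.neighborSet y).ncard + 1 = a y := by
      rw [hG' y]
      have := haa' y
      rw [if_pos rfl, if_neg hyx] at this
      omega
    have hm : ∃ m ∈ P, ¬ G'.Adj x m := by
      by_contra hcon
      push Not at hcon
      have h1 : (P : Set V) ⊆ G'.neighborSet x := fun m hm => hcon m hm
      have h2 := Set.ncard_le_ncard h1 (Set.toFinite _)
      rw [Set.ncard_coe_finset] at h2
      omega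
    obtain ⟨m, hmP, hxm⟩ := hm
    obtain ⟨hmx, hm0⟩ := (mem_filter.mp hmP).2
    have hmy : m ≠ y := fun hh => hxm (hh ▸ hadj)
    have ham : (G'.neighborSet m).ncard = a m := by
      rw [hG' m]
      have := haa' m
      rw [if_neg hmx, if_neg hmy] at this
      omega
    have haym := hymin m hmx hm0
    -- a neighbour `p` of `m` not adjacent to `y`
    have hp : ∃ p, G'.Adj m p ∧ ¬ G'.Adj y p ∧ p ≠ y := by
      by_contra hcon
      push Not at hcon
      have h1 : insert x (G'.neighborSet m) ⊆ insert y (G'.neighborSet y) := by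
        intro w hw
        rcases hw with rfl | hw
        · exact Or.inr hadj.symm
        · by_cases hwy : w = y
          · exact Or.inl hwy
          · right
            by_contra hyw
            exact hwy (hcon w hw hyw)
      have h1' : insert x (G'.neighborSet m) ⊆ insert y (G'.neighborSet y) \ {m} ∨
          ¬ G'.Adj y m := by
        by_cases hym : G'.Adj y m
        · left
          intro w hw
          refine ⟨h1 hw, ?_⟩
          rintro rfl
          rcases hw with hw | hw
          · exact hmx hw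
          · exact G'.loopless.irrefl _ hw
        · exact Or.inr hym
      have hxm' : x ∉ G'.neighborSet m := fun hh => hxm (SimpleGraph.Adj.symm hh)
      have h2 : (insert x (G'.neighborSet m)).ncard = (G'.neighborSet m).ncard + 1 :=
        Set.ncard_insert_of_notMem hxm' (Set.toFinite _)
      by_cases hym : G'.Adj y m
      · rcases h1' with h3 | h3
        · have h4 := Set.ncard_le_ncard h3 (Set.toFinite _)
          have h5 := Set.ncard_sdiff_singleton_add_one
            (show m ∈ insert y (G'.neighborSet y) from Or.inr hym) (Set.toFinite _)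
          have h6 := Set.ncard_insert_le y (G'.neighborSet y)
          omega
        · exact h3 hym
      · -- `m` is not adjacent to `y`
        have h3 : insert x (G'.neighborSet m) ⊆ G'.neighborSet y := by
          intro w hw
          rcases hw with rfl | hw
          · exact hadj.symm
          · by_contra hyw
            have := hcon w hw hyw
            subst this
            exact hym (SimpleGraph.Adj.symm hw)
        have h4 := Set.ncard_le_ncard h3 (Set.toFinite _)
        omega
    obtain ⟨p, hmp, hyp, hpy⟩ := hp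
    have hpx : p ≠ x := fun hh => hxm (hh ▸ hmp.symm)
    have hpm : p ≠ m := hmp.ne.symm
    obtain ⟨G1, hG1, hG1d⟩ := del_edge G' m p hmp
    -- add the edge `x m`
    obtain ⟨G2, hG2a, hG2⟩ : ∃ G2 : SimpleGraph V, ¬ G2.Adj y p ∧
        ∀ v, (G2.neighborSet v).ncard = (G1.neighborSet v).ncard +
          ((if v = x then 1 else 0) + (if v = m then 1 else 0)) := by
      have hxm1 : ¬ G1.Adj x m := fun hh => hxm ((hG1 x m).mp hh).1
      obtain ⟨G2, h1, h2⟩ := add_edge G1 _ x m hmx.symm hxm1 fun v => rfl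
      refine ⟨G2, ?_, h2⟩
      rw [h1]
      rintro (hh | ⟨hh, -⟩ | ⟨hh, -⟩)
      · exact hyp ((hG1 y p).mp hh).1
      · exact hyx hh
      · exact hmy hh.symm
    suffices hs : ∀ v, (G2.neighborSet v).ncard +
        ((if v = y then 1 else 0) + (if v = p then 1 else 0)) = a v by
      obtain ⟨G3, -, hG3⟩ := add_edge G2 a y p hpy.symm hG2a hs
      exact ⟨G3, hG3⟩
    intro v
    have e1 := hG2 v
    have e2 := hG1d v
    have e3 := haa' v
    rw [← hG' v] at e3
    by_cases h1 : v = x
    · subst h1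
      rw [if_pos rfl, if_neg hmx.symm] at e1
      rw [if_neg hmx.symm, if_neg hpx.symm] at e2
      rw [if_pos rfl, if_neg hxy] at e3
      rw [if_neg hxy, if_neg hpx.symm]
      omega
    · by_cases h2 : v = y
      · subst h2
        rw [if_neg h1, if_neg hmy.symm] at e1
        rw [if_neg hmy.symm, if_neg hpy.symm] at e2
        rw [if_neg h1, if_pos rfl] at e3
        rw [if_pos rfl, if_neg hpy.symm]
        omega
      · by_cases h3 : v = m
        · subst h3
          rw [if_neg h1, if_pos rfl] at e1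
          rw [if_pos rfl, if_neg hpm.symm] at e2
          rw [if_neg h1, if_neg h2] at e3
          rw [if_neg h2, if_neg hpm.symm]
          omega
        · by_cases h4 : v = p
          · subst h4
            rw [if_neg h1, if_neg h3] at e1
            rw [if_neg h3, if_pos rfl] at e2
            rw [if_neg h1, if_neg h2] at e3
            rw [if_neg h2, if_pos rfl]
            omega
          · rw [if_neg h1, if_neg h3] at e1
            rw [if_neg h3, if_neg h4] at e2
            rw [if_neg h1, if_neg h2] at e3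
            rw [if_neg h2, if_neg h4]
            omega

end EG

/-! ### The upper bound -/

section Upper

lemma up_chain {V : Finset ℕ} {k d : ℕ} (hk : ∀ v ∈ V, v ≤ k)
    (hup : ∀ v ∈ V, v < k → ∃ w ∈ V, v < w ∧ w ≤ v + d) (J : ℕ) :
    ∀ b ∈ V, 2 * (J : ℤ) * ((k : ℤ) - b) - d * J * (J - 1) ≤
      2 * ∑ v ∈ V.filter (fun v => b ≤ v), ((k : ℤ) - v) := by
  induction J with
  | zero =>
    intro b _
    have : 0 ≤ ∑ v ∈ V.filter (fun v => b ≤ v), ((k : ℤ) - v) :=
      Finset.sum_nonneg fun v hv => by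
        have := hk v (mem_filter.mp hv).1
        omega
    simp only [Nat.cast_zero]
    linarith
  | succ J ih =>
    intro b hb
    rcases Nat.lt_or_ge b k with hbk | hbk
    · obtain ⟨w, hw, hbw, hwd⟩ := hup b hb hbk
      have h1 := ih w hw
      have h2 : insert b (V.filter (fun v => w ≤ v)) ⊆ V.filter (fun v => b ≤ v) := by
        intro v hv
        rw [mem_insert] at hv
        rcases hv with rfl | hv
        · exact mem_filter.mpr ⟨hb, le_rfl⟩
        · exact mem_filter.mpr ⟨(mem_filter.mp hv).1, by have := (mem_filter.mp hv).2; omega⟩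
      have h3 : b ∉ V.filter (fun v => w ≤ v) := by
        intro hh
        have := (mem_filter.mp hh).2
        omega
      have h4 : ∑ v ∈ insert b (V.filter (fun v => w ≤ v)), ((k : ℤ) - v) ≤
          ∑ v ∈ V.filter (fun v => b ≤ v), ((k : ℤ) - v) :=
        Finset.sum_le_sum_of_subset_of_nonneg h2 fun v hv _ => by
          have := hk v (mem_filter.mp hv).1
          omega
      rw [sum_insert h3] at h4
      have h5 : (w : ℤ) ≤ b + d := by exact_mod_cast hwd
      have hJ : (0 : ℤ) ≤ J := Int.natCast_nonneg J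
      push_cast
      nlinarith
    · have hbk' : b = k := le_antisymm (hk b hb) hbk
      have : 0 ≤ ∑ v ∈ V.filter (fun v => b ≤ v), ((k : ℤ) - v) :=
        Finset.sum_nonneg fun v hv => by
          have := hk v (mem_filter.mp hv).1
          omega
      subst hbk'
      have h6 : (0 : ℤ) ≤ d * (J + 1) * J := by positivity
      push_cast
      nlinarith

lemma down_chain {V : Finset ℕ} {s d : ℕ} (hs : ∀ v ∈ V, s ≤ v)
    (hdn : ∀ v ∈ V, s < v → ∃ w ∈ V, w < v ∧ v ≤ w + d) (J : ℕ) :
    ∀ b ∈ V, 2 * (J : ℤ) * ((b : ℤ) - s) - d * J * (J + 1) ≤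
      2 * ∑ v ∈ V.filter (fun v => v < b), ((v : ℤ) - s) := by
  induction J with
  | zero =>
    intro b _
    have : 0 ≤ ∑ v ∈ V.filter (fun v => v < b), ((v : ℤ) - s) :=
      Finset.sum_nonneg fun v hv => by
        have := hs v (mem_filter.mp hv).1
        omega
    simp only [Nat.cast_zero]
    linarith
  | succ J ih =>
    intro b hb
    rcases Nat.lt_or_ge s b with hbs | hbs
    · obtain ⟨w, hw, hwb, hbd⟩ := hdn b hb hbs
      have h1 := ih w hw
      have h2 : insert w (V.filter (fun v => v < w)) ⊆ V.filter (fun v => v < b) := by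
        intro v hv
        rw [mem_insert] at hv
        rcases hv with rfl | hv
        · exact mem_filter.mpr ⟨hw, hwb⟩
        · exact mem_filter.mpr ⟨(mem_filter.mp hv).1, by have := (mem_filter.mp hv).2; omega⟩
      have h3 : w ∉ V.filter (fun v => v < w) := by
        intro hh
        have := (mem_filter.mp hh).2
        omega
      have h4 : ∑ v ∈ insert w (V.filter (fun v => v < w)), ((v : ℤ) - s) ≤
          ∑ v ∈ V.filter (fun v => v < b), ((v : ℤ) - s) :=
        Finset.sum_le_sum_of_subset_of_nonneg h2 fun v hv _ => by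
          have := hs v (mem_filter.mp hv).1
          omega
      rw [sum_insert h3] at h4
      have h5 : (b : ℤ) ≤ w + d := by exact_mod_cast hbd
      have hJ : (0 : ℤ) ≤ J := Int.natCast_nonneg J
      push_cast
      nlinarith
    · have hbs' : b = s := le_antisymm hbs (hs b hb)
      have : 0 ≤ ∑ v ∈ V.filter (fun v => v < b), ((v : ℤ) - s) :=
        Finset.sum_nonneg fun v hv => by
          have := hs v (mem_filter.mp hv).1
          omega
      subst hbs'
      have h6 : (0 : ℤ) ≤ d * (J + 1) * (J + 2) := by positivity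
      push_cast
      nlinarith

/-- The values of a list with small gaps. -/
lemma mid_sum {V : Finset ℕ} {k s d : ℕ} (hkV : k ∈ V) (hb : ∀ v ∈ V, s ≤ v ∧ v ≤ k)
    (hup : ∀ v ∈ V, v < k → ∃ w ∈ V, v < w ∧ w ≤ v + d)
    (hdn : ∀ v ∈ V, s < v → ∃ w ∈ V, w < v ∧ v ≤ w + d) (J : ℕ) :
    (J : ℤ) * ((k : ℤ) - s) - d * J * J ≤ ∑ v ∈ V, min ((k : ℤ) - v) ((v : ℤ) - s) := by
  have hsk : s ≤ k := (hb k hkV).1
  have hne : (V.filter fun v : ℕ => (k : ℤ) - v ≤ (v : ℤ) - s).Nonempty :=
    ⟨k, mem_filter.mpr ⟨hkV, by omega⟩⟩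
  obtain ⟨b, hbV, hbmin⟩ := Finset.exists_min_image _ (fun v : ℕ => v) hne
  have hbV' := mem_filter.mp hbV
  have h1 := up_chain (fun v hv => (hb v hv).2) hup J b hbV'.1
  have h2 := down_chain (fun v hv => (hb v hv).1) hdn J b hbV'.1
  have h3 : ∑ v ∈ V, min ((k : ℤ) - v) ((v : ℤ) - s) =
      ∑ v ∈ V.filter (fun v => b ≤ v), ((k : ℤ) - v) +
      ∑ v ∈ V.filter (fun v => v < b), ((v : ℤ) - s) := by
    rw [← Finset.sum_filter_add_sum_filter_not V (fun v => b ≤ v)]
    congr 1
    · refine Finset.sum_congr rfl fun v hv => ?_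
      have h4 := (mem_filter.mp hv).2
      have h5 := hbV'.2
      rw [min_eq_left (by omega)]
    · have h6 : V.filter (fun v => ¬ b ≤ v) = V.filter (fun v => v < b) :=
        Finset.filter_congr fun v _ => by omega
      rw [h6]
      refine Finset.sum_congr rfl fun v hv => ?_
      have h4 := mem_filter.mp hv
      rw [min_eq_right]
      by_contra hcon
      have h7 := hbmin v (mem_filter.mpr ⟨h4.1, by omega⟩)
      omega
  rw [h3]
  nlinarith

/-- The truncated sums. -/
def Hs (V : Finset ℕ) (k s : ℕ) (r : ℤ) : ℤ :=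
  ∑ v ∈ V, min ((k : ℤ) - v) (min ((v : ℤ) - s) (r - s))

lemma F_step {V : Finset ℕ} {k s : ℕ} (r : ℤ) (h : 2 * (r - s) + 1 ≤ (k : ℤ) - s) :
    r * (k + s + 1 - r) - Hs V k s r + 1 ≤ (r + 1) * (k + s + 1 - (r + 1)) - Hs V k s (r + 1) := by
  have h1 : Hs V k s (r + 1) ≤ Hs V k s r +
      ((V.filter fun v : ℕ => r + 1 ≤ (v : ℤ) ∧ (v : ℤ) ≤ k - (r + 1 - s)).card : ℤ) := by
    unfold Hs
    rw [card_filter, Nat.cast_sum, ← Finset.sum_add_distrib]
    refine Finset.sum_le_sum fun v _ => ?_
    split_ifs with h2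
    · push_cast; omega
    · push_cast; omega
  have h2 : ((V.filter fun v : ℕ => r + 1 ≤ (v : ℤ) ∧ (v : ℤ) ≤ k - (r + 1 - s)).card : ℤ) ≤
      k + s - 2 * r - 1 := by
    have h3 : (V.filter fun v : ℕ => r + 1 ≤ (v : ℤ) ∧ (v : ℤ) ≤ k - (r + 1 - s)).card ≤
        (Finset.Icc (r + 1) ((k : ℤ) - (r + 1 - s))).card := by
      refine card_le_card_of_injOn (fun v => (v : ℤ)) ?_ ?_
      · intro v hv
        have := (mem_filter.mp (mem_coe.mp hv)).2
        exact mem_coe.mpr (mem_Icc.mpr this)
      · intro v _ w _ hvw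
        have hvw' : (v : ℤ) = w := hvw
        exact_mod_cast hvw'
    rw [Int.card_Icc] at h3
    omega
  nlinarith

lemma F_bound {V : Finset ℕ} {k s d : ℕ} (hkV : k ∈ V) (hb : ∀ v ∈ V, s ≤ v ∧ v ≤ k)
    (hup : ∀ v ∈ V, v < k → ∃ w ∈ V, v < w ∧ w ≤ v + d)
    (hdn : ∀ v ∈ V, s < v → ∃ w ∈ V, w < v ∧ v ≤ w + d) (J : ℕ) (W : ℤ)
    (hW : W = ((k : ℤ) + s + 1) ^ 2 / 4 - ((J : ℤ) * ((k : ℤ) - s) - d * J * J)) (r : ℤ)
    (hr : (k : ℤ) - s ≤ 2 * (r - s)) : r * (k + s + 1 - r) - Hs V k s r ≤ W := by
  have h1 := mid_sum hkV hb hup hdn J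
  have h2 : Hs V k s r = ∑ v ∈ V, min ((k : ℤ) - v) ((v : ℤ) - s) := by
    unfold Hs
    refine Finset.sum_congr rfl fun v _ => ?_
    omega
  have h3 : r * (k + s + 1 - r) ≤ ((k : ℤ) + s + 1) ^ 2 / 4 := by
    rw [Int.le_ediv_iff_mul_le (by norm_num)]
    nlinarith [sq_nonneg ((k : ℤ) + s + 1 - 2 * r)]
  rw [h2, hW]
  linarith

lemma F_bound' {V : Finset ℕ} {k s d : ℕ} (hkV : k ∈ V) (hb : ∀ v ∈ V, s ≤ v ∧ v ≤ k)
    (hup : ∀ v ∈ V, v < k → ∃ w ∈ V, v < w ∧ w ≤ v + d)
    (hdn : ∀ v ∈ V, s < v → ∃ w ∈ V, w < v ∧ v ≤ w + d) (J : ℕ) (W : ℤ)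
    (hW : W = ((k : ℤ) + s + 1) ^ 2 / 4 - ((J : ℤ) * ((k : ℤ) - s) - d * J * J)) (t : ℕ) :
    ∀ r : ℤ, (k : ℤ) - s - 2 * (r - s) ≤ t → 2 * (r - s) < (k : ℤ) - s →
      r * (k + s + 1 - r) - Hs V k s r + 1 ≤ W := by
  induction t with
  | zero => intro r h1 h2; push_cast at h1; omega
  | succ t ih =>
    intro r h1 h2
    have h3 := F_step (V := V) (k := k) (s := s) r (by omega)
    rcases lt_or_ge (2 * (r + 1 - s)) ((k : ℤ) - s) with h4 | h4
    · have h5 := ih (r + 1) (by push_cast at h1; omega) h4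
      linarith
    · have h5 := F_bound hkV hb hup hdn J W hW (r + 1) h4
      linarith

end Upper

/-! ### The lists -/

/-- `a` is a list of length `n` in `L(k, s, d)`, its terms being written in nonincreasing order:
the largest term is `k`, the smallest term is `s`, the sum is even, and consecutive terms differ by
at most `d`. -/
structure InL (k s d : ℕ) {n : ℕ} (a : Fin n → ℕ) : Prop where
  anti : Antitone a
  largest : (∃ i, a i = k) ∧ ∀ i, a i ≤ k
  smallest : (∃ i, a i = s) ∧ ∀ i, s ≤ a i
  even : Even (∑ i, a i)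
  gap : ∀ i j : Fin n, (i : ℕ) + 1 = j → a i ≤ a j + d

/-- The list `a` is graphic: it is the list of degrees of a simple graph. -/
def Graphic {n : ℕ} (a : Fin n → ℕ) : Prop :=
  ∃ (G : SimpleGraph (Fin n)) (_ : DecidableRel G.Adj), ∀ i, G.degree i = a i

lemma graphic_iff {n : ℕ} (a : Fin n → ℕ) :
    Graphic a ↔ ∃ G : SimpleGraph (Fin n), ∀ i, (G.neighborSet i).ncard = a i := by
  have key : ∀ (G : SimpleGraph (Fin n)) [DecidableRel G.Adj] (i : Fin n),
      (G.neighborSet i).ncard = G.degree i := by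
    intro G _ i
    rw [← SimpleGraph.card_neighborSet_eq_degree, ← Nat.card_coe_set_eq, Nat.card_eq_fintype_card]
  constructor
  · rintro ⟨G, hG, h⟩
    exact ⟨G, fun i => by rw [key G i]; exact h i⟩
  · rintro ⟨G, h⟩
    classical
    exact ⟨G, inferInstance, fun i => by rw [← key G i]; exact h i⟩

/-- `⌊(D + d - 1) / (2 d)⌋` for `D = k - s`. -/
def jay (k s d : ℕ) : ℕ := (k - s + d - 1) / (2 * d)

/-- The formula for the threshold. -/
def formula (k s d : ℕ) : ℕ :=
  ((k + s + 1) ^ 2 / 4 - jay k s d * (k - s - jay k s d * d) - 2) / s + 1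

lemma jay_le {k s d : ℕ} (hd : 1 ≤ d) (hsk : s < k) : 2 * jay k s d ≤ k - s := by
  have h1 : 2 * d * jay k s d ≤ k - s + d - 1 := Nat.mul_div_le _ _
  by_contra hcon
  push Not at hcon
  have h2 : d * (k - s + 1) ≤ d * (2 * jay k s d) := Nat.mul_le_mul_left _ (by omega)
  have h3 : 1 * (k - s) ≤ d * (k - s) := Nat.mul_le_mul_right _ hd
  have h4 : d * (k - s + 1) = d * (k - s) + d := by ring
  have h5 : d * (2 * jay k s d) = 2 * d * jay k s d := by ring
  omega

lemma jay_mul_le {k s d : ℕ} (hdk : d ≤ k - s) :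
    jay k s d * d ≤ k - s := by
  have h1 : 2 * d * jay k s d ≤ k - s + d - 1 := Nat.mul_div_le _ _
  have h2 : 2 * d * jay k s d = 2 * (jay k s d * d) := by ring
  omega

/-- The quantity `W`, over the integers. -/
lemma W_cast {k s d : ℕ} (hs : 1 ≤ s) (hd : 1 ≤ d) (hsk : s < k) (hdk : d ≤ k - s) :
    (((k + s + 1) ^ 2 / 4 - jay k s d * (k - s - jay k s d * d) : ℕ) : ℤ) =
      ((k : ℤ) + s + 1) ^ 2 / 4 -
        ((jay k s d : ℤ) * ((k : ℤ) - s) - d * jay k s d * jay k s d) ∧
    (k : ℤ) * s + 2 ≤ ((k : ℤ) + s + 1) ^ 2 / 4 -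
        ((jay k s d : ℤ) * ((k : ℤ) - s) - d * jay k s d * jay k s d) := by
  have h1 := jay_mul_le hdk
  have h2 := jay_le hd hsk
  set J := jay k s d with hJ
  have e1 : ((J * (k - s - J * d) : ℕ) : ℤ) = (J : ℤ) * ((k : ℤ) - s) - d * J * J := by
    push_cast [Nat.cast_sub h1, Nat.cast_sub hsk.le]
    ring
  have e2 : (((k + s + 1) ^ 2 / 4 : ℕ) : ℤ) = ((k : ℤ) + s + 1) ^ 2 / 4 := by push_cast; rfl
  have e3 : (k : ℤ) * s + 2 ≤ ((k : ℤ) + s + 1) ^ 2 / 4 -
        ((J : ℤ) * ((k : ℤ) - s) - d * J * J) := by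
    have h3 : (0 : ℤ) ≤ J := Int.natCast_nonneg J
    have hd' : (1 : ℤ) ≤ d := by exact_mod_cast hd
    have h4 : (J : ℤ) * ((k : ℤ) - s) - d * J * J ≤ J * ((k : ℤ) - s) - J * J := by nlinarith
    have h5 : 4 * ((J : ℤ) * ((k : ℤ) - s) - J * J) ≤ ((k : ℤ) - s) ^ 2 := by
      nlinarith [sq_nonneg ((k : ℤ) - s - 2 * J)]
    have h6 : ((k : ℤ) + s + 1) ^ 2 - 1 ≤ 4 * (((k : ℤ) + s + 1) ^ 2 / 4) := by
      have h7 := Int.emod_add_mul_ediv (((k : ℤ) + s + 1) ^ 2) 4
      have h8 : ((k : ℤ) + s + 1) ^ 2 % 4 = 0 ∨ ((k : ℤ) + s + 1) ^ 2 % 4 = 1 := by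
        rcases Int.even_or_odd' ((k : ℤ) + s + 1) with ⟨c, hc | hc⟩
        · left; rw [hc]; ring_nf; omega
        · right; rw [hc]; ring_nf; omega
      omega
    have h9 : ((k : ℤ) + s + 1) ^ 2 - ((k : ℤ) - s) ^ 2 = 4 * (k * s) + 2 * k + 2 * s + 1 := by ring
    omega
  refine ⟨?_, e3⟩
  have h10 : J * (k - s - J * d) ≤ (k + s + 1) ^ 2 / 4 := by
    have h11 : ((J * (k - s - J * d) : ℕ) : ℤ) ≤ (((k + s + 1) ^ 2 / 4 : ℕ) : ℤ) := by
      rw [e1, e2]
      have : (0 : ℤ) ≤ (k : ℤ) * s := by positivity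
      linarith
    exact_mod_cast h11
  rw [Nat.cast_sub h10, e1, e2]

/-! ### Long lists are graphic -/

lemma exists_above {k s d n : ℕ} {a : Fin n → ℕ} (h : InL k s d a) :
    ∀ v ∈ univ.image a, v < k → ∃ w ∈ univ.image a, v < w ∧ w ≤ v + d := by
  intro v hv hvk
  obtain ⟨j, -, hj⟩ := mem_image.mp hv
  obtain ⟨i0, hi0⟩ := h.largest.1
  have hne : (univ.filter fun i => v < a i).Nonempty :=
    ⟨i0, mem_filter.mpr ⟨mem_univ _, by omega⟩⟩
  obtain ⟨i1, hi1, hmax⟩ := Finset.exists_max_image _ (fun i : Fin n => (i : ℕ)) hne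
  have hi1' := (mem_filter.mp hi1).2
  have hlt : (i1 : ℕ) < j := by
    by_contra hcon
    push Not at hcon
    have := h.anti (show j ≤ i1 from hcon)
    omega
  have hlt' : (i1 : ℕ) + 1 < n := lt_of_le_of_lt hlt j.2
  have h2 : a ⟨i1 + 1, hlt'⟩ ≤ v := by
    by_contra hcon
    push Not at hcon
    have := hmax ⟨i1 + 1, hlt'⟩ (mem_filter.mpr ⟨mem_univ _, hcon⟩)
    simp at this
  have h3 := h.gap i1 ⟨i1 + 1, hlt'⟩ rfl
  exact ⟨a i1, mem_image_of_mem a (mem_univ _), hi1', by omega⟩

lemma exists_below {k s d n : ℕ} {a : Fin n → ℕ} (h : InL k s d a) :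
    ∀ v ∈ univ.image a, s < v → ∃ w ∈ univ.image a, w < v ∧ v ≤ w + d := by
  intro v hv hvk
  obtain ⟨j, -, hj⟩ := mem_image.mp hv
  obtain ⟨i0, hi0⟩ := h.smallest.1
  have hne : (univ.filter fun i => v ≤ a i).Nonempty :=
    ⟨j, mem_filter.mpr ⟨mem_univ _, by omega⟩⟩
  obtain ⟨i1, hi1, hmax⟩ := Finset.exists_max_image _ (fun i : Fin n => (i : ℕ)) hne
  have hi1' := (mem_filter.mp hi1).2
  have hlt : (i1 : ℕ) < i0 := by
    by_contra hcon
    push Not at hcon
    have := h.anti (show i0 ≤ i1 from hcon)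
    omega
  have hlt' : (i1 : ℕ) + 1 < n := lt_of_le_of_lt hlt i0.2
  have h2 : a ⟨i1 + 1, hlt'⟩ < v := by
    by_contra hcon
    push Not at hcon
    have := hmax ⟨i1 + 1, hlt'⟩ (mem_filter.mpr ⟨mem_univ _, hcon⟩)
    simp at this
  have h3 := h.gap i1 ⟨i1 + 1, hlt'⟩ rfl
  exact ⟨a ⟨i1 + 1, hlt'⟩, mem_image_of_mem a (mem_univ _), h2, by omega⟩

lemma sum_image_le {n : ℕ} (a : Fin n → ℕ) (f : ℕ → ℤ) (hf : ∀ i, 0 ≤ f (a i)) :
    ∑ v ∈ univ.image a, f v ≤ ∑ i, f (a i) := by
  classical
  have h : ∑ i, f (a i) = ∑ v ∈ univ.image a, ∑ i ∈ univ.filter (fun i => a i = v), f (a i) :=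
    (Finset.sum_fiberwise_of_maps_to (fun i _ => mem_image_of_mem a (mem_univ i)) _).symm
  rw [h]
  refine Finset.sum_le_sum fun v hv => ?_
  obtain ⟨i, -, hi⟩ := mem_image.mp hv
  calc f v = f (a i) := by rw [hi]
    _ ≤ _ := Finset.single_le_sum (f := fun i => f (a i)) (fun i _ => hf i)
        (mem_filter.mpr ⟨mem_univ i, hi⟩)

theorem eg_of_long {k s d n : ℕ} (hs : 1 ≤ s) (hsk : s < k) (hd : 1 ≤ d) (hdk : d ≤ k - s)
    {a : Fin n → ℕ} (h : InL k s d a) (hn : formula k s d ≤ n) : EG a := by
  obtain ⟨hW1, hW2⟩ := W_cast hs hd hsk hdk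
  set W : ℤ := ((k : ℤ) + s + 1) ^ 2 / 4 -
        ((jay k s d : ℤ) * ((k : ℤ) - s) - d * jay k s d * jay k s d) with hW
  -- the length is large
  have hlong : W - 2 < (s : ℤ) * n := by
    unfold formula at hn
    set w := (k + s + 1) ^ 2 / 4 - jay k s d * (k - s - jay k s d * d) with hw
    have h1 : w - 2 < s * ((w - 2) / s + 1) := Nat.lt_mul_div_succ _ hs
    have h2 : s * ((w - 2) / s + 1) ≤ s * n := Nat.mul_le_mul_left _ hn
    have h3 : ((w - 2 : ℕ) : ℤ) < ((s * n : ℕ) : ℤ) := by exact_mod_cast lt_of_lt_of_le h1 h2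
    push_cast at h3
    omega
  by_contra hcon
  unfold EG at hcon
  push Not at hcon
  obtain ⟨S, hS⟩ := hcon
  set r := S.card with hr
  have hrn : r ≤ n := by
    have := card_le_univ S
    rwa [Fintype.card_fin] at this
  have hcompl : Sᶜ.card = n - r := by rw [card_compl, Fintype.card_fin]
  rcases Nat.lt_or_ge r s with hrs | hrs
  · -- few large degrees
    have h1 : ∑ v ∈ Sᶜ, min r (a v) = (n - r) * r := by
      rw [Finset.sum_congr rfl fun v _ => min_eq_left (by have := h.smallest.2 v; omega), sum_const,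
        hcompl, smul_eq_mul]
    have h2 : ∑ v ∈ S, a v ≤ r * k := by
      have := Finset.sum_le_card_nsmul S a k fun v _ => h.largest.2 v
      rwa [smul_eq_mul] at this
    rw [h1] at hS
    have hnk : n ≤ k := by
      by_contra hc
      push Not at hc
      rcases Nat.eq_zero_or_pos r with h0 | h0
      · rw [h0, zero_mul] at h2
        exact absurd hS (by rw [Nat.le_zero.mp h2]; exact Nat.not_lt_zero _)
      · have h3 : r * k ≤ r * (r - 1) + (n - r) * r := by
          have h4 : r * (r - 1) + (n - r) * r = r * (n - 1) := by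
            rw [mul_comm (n - r) r, ← Nat.mul_add]
            congr 1
            omega
          rw [h4]
          exact Nat.mul_le_mul_left _ (by omega)
        omega
    have h5 : (s : ℤ) * n ≤ k * s := by
      rw [mul_comm (k : ℤ)]
      exact_mod_cast Nat.mul_le_mul_left s hnk
    linarith
  -- the general case
  set V := univ.image a with hV
  have hkV : k ∈ V := by
    obtain ⟨i, hi⟩ := h.largest.1
    exact mem_image.mpr ⟨i, mem_univ _, hi⟩
  have hb : ∀ v ∈ V, s ≤ v ∧ v ≤ k := by
    intro v hv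
    obtain ⟨i, -, hi⟩ := mem_image.mp hv
    exact ⟨hi ▸ h.smallest.2 i, hi ▸ h.largest.2 i⟩
  have hup := exists_above h
  have hdn := exists_below h
  let hh : ℕ → ℤ := fun v => min ((k : ℤ) - v) (min ((v : ℤ) - s) ((r : ℤ) - s))
  let c : Fin n → ℤ := fun i => if i ∈ S then (k : ℤ) - a i else min (r : ℤ) (a i) - s
  have hch : ∀ i, hh (a i) ≤ c i := by
    intro i
    simp only [hh, c]
    split_ifs <;> omega
  have hhpos : ∀ i, 0 ≤ hh (a i) := by
    intro i
    have h1 := h.smallest.2 i
    have h2 := h.largest.2 i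
    simp only [hh]
    omega
  have hsumV : Hs V k s r ≤ ∑ i, hh (a i) := sum_image_le a hh hhpos
  have hsumc : ∑ i, c i = (r : ℤ) * k - ∑ i ∈ S, (a i : ℤ) + ∑ i ∈ Sᶜ, min (r : ℤ) (a i) -
      (n - r) * s := by
    rw [← Finset.sum_add_sum_compl S c]
    have h1 : ∑ i ∈ S, c i = (r : ℤ) * k - ∑ i ∈ S, (a i : ℤ) := by
      rw [Finset.sum_congr rfl (fun i hi => (if_pos hi : c i = (k : ℤ) - a i)),
        Finset.sum_sub_distrib, sum_const, nsmul_eq_mul]
    have h2 : ∑ i ∈ Sᶜ, c i = ∑ i ∈ Sᶜ, min (r : ℤ) (a i) - (n - r) * s := by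
      rw [Finset.sum_congr rfl (fun i hi => (if_neg (mem_compl.mp hi) : c i = min (r : ℤ) (a i) - s)),
        Finset.sum_sub_distrib, sum_const, nsmul_eq_mul, hcompl, Nat.cast_sub hrn]
    rw [h1, h2]
    ring
  -- the violation
  have hvio : (r : ℤ) * (r - 1) + ∑ i ∈ Sᶜ, min (r : ℤ) (a i) + 1 ≤ ∑ i ∈ S, (a i : ℤ) := by
    have h1 : ((r * (r - 1) + ∑ v ∈ Sᶜ, min r (a v) : ℕ) : ℤ) < ((∑ v ∈ S, a v : ℕ) : ℤ) := by
      exact_mod_cast hS
    have h2 : ((r * (r - 1) : ℕ) : ℤ) = (r : ℤ) * (r - 1) := by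
      rcases Nat.eq_zero_or_pos r with h0 | h0
      · rw [h0]; simp
      · rw [Nat.cast_mul, Nat.cast_sub h0]; simp
    rw [Nat.cast_add, h2] at h1
    push_cast at h1
    linarith
  rcases lt_or_ge (2 * ((r : ℤ) - s)) ((k : ℤ) - s) with hr2 | hr2
  · have h1 := F_bound' hkV hb hup hdn (jay k s d) W hW (k - s) r (by omega) hr2
    have h2 : ∑ i, hh (a i) ≤ ∑ i, c i := Finset.sum_le_sum fun i _ => hch i
    nlinarith
  · have h1 := F_bound hkV hb hup hdn (jay k s d) W hW r hr2
    have h2 : ∑ i, hh (a i) ≤ ∑ i, c i := Finset.sum_le_sum fun i _ => hch i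
    by_cases hv2 : (r : ℤ) * (r - 1) + ∑ i ∈ Sᶜ, min (r : ℤ) (a i) + 2 ≤ ∑ i ∈ S, (a i : ℤ)
    · nlinarith
    · -- the violation is one, so some small vertex has a large degree
      have hex : ∃ i ∈ Sᶜ, r < a i := by
        by_contra hc
        push Not at hc
        have h3 : ∑ i ∈ Sᶜ, min (r : ℤ) (a i) = ∑ i ∈ Sᶜ, (a i : ℤ) :=
          Finset.sum_congr rfl fun i hi => min_eq_right (by exact_mod_cast hc i hi)
        rw [h3] at hvio hv2
        obtain ⟨q, hq⟩ := h.even
        have h4 : ∑ i ∈ S, (a i : ℤ) + ∑ i ∈ Sᶜ, (a i : ℤ) = q + q := by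
          rw [Finset.sum_add_sum_compl]
          exact_mod_cast hq
        obtain ⟨p, hp⟩ := Int.even_mul_pred_self (r : ℤ)
        omega
      obtain ⟨i, hiS, hi⟩ := hex
      have h3 : ∑ i, hh (a i) + 1 ≤ ∑ i, c i := by
        have h4 : ∑ i, hh (a i) < ∑ i, c i := by
          refine Finset.sum_lt_sum (fun i _ => hch i) ⟨i, mem_univ _, ?_⟩
          simp only [hh, c, if_neg (mem_compl.mp hiS)]
          omega
        exact h4
      nlinarith

/-! ### Lists that are not graphic -/

lemma not_graphic_of_small {n k : ℕ} {a : Fin n → ℕ} (i : Fin n) (hi : a i = k) (hn : n ≤ k) :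
    ¬ Graphic a := by
  rintro ⟨G, hG, h⟩
  have h1 := G.degree_lt_card_verts i
  rw [h i, Fintype.card_fin] at h1
  omega

/-- The easy half of the theorem of Erdős and Gallai, in a weak form. -/
lemma not_graphic_of_violation {n : ℕ} {a : Fin n → ℕ} (S : Finset (Fin n))
    (h : S.card * (S.card - 1) + ∑ v ∈ Sᶜ, a v < ∑ v ∈ S, a v) : ¬ Graphic a := by
  rintro ⟨G, hG, hdeg⟩
  have h1 : ∀ v ∈ S, a v ≤ (S.card - 1) + (Sᶜ.filter fun w => G.Adj v w).card := by
    intro v hv
    rw [← hdeg v, ← SimpleGraph.card_neighborFinset_eq_degree]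
    have h2 : G.neighborFinset v ⊆ S.erase v ∪ (Sᶜ.filter fun w => G.Adj v w) := by
      intro w hw
      rw [SimpleGraph.mem_neighborFinset] at hw
      rw [mem_union]
      by_cases hwS : w ∈ S
      · left
        exact mem_erase.mpr ⟨hw.ne.symm, hwS⟩
      · right
        exact mem_filter.mpr ⟨mem_compl.mpr hwS, hw⟩
    calc (G.neighborFinset v).card ≤ _ := card_le_card h2
      _ ≤ (S.erase v).card + (Sᶜ.filter fun w => G.Adj v w).card := card_union_le _ _
      _ = _ := by rw [card_erase_of_mem hv]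
  have h3 : ∑ v ∈ S, (Sᶜ.filter fun w => G.Adj v w).card =
      ∑ w ∈ Sᶜ, (S.filter fun v => G.Adj v w).card :=
    Finset.sum_card_bipartiteAbove_eq_sum_card_bipartiteBelow (fun v w => G.Adj v w)
  have h4 : ∀ w ∈ Sᶜ, (S.filter fun v => G.Adj v w).card ≤ a w := by
    intro w _
    rw [← hdeg w, ← SimpleGraph.card_neighborFinset_eq_degree]
    refine card_le_card fun v hv => ?_
    rw [SimpleGraph.mem_neighborFinset]
    exact ((mem_filter.mp hv).2).symm
  have h5 : ∑ v ∈ S, a v ≤ S.card * (S.card - 1) + ∑ w ∈ Sᶜ, a w := by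
    calc ∑ v ∈ S, a v ≤ ∑ v ∈ S, ((S.card - 1) + (Sᶜ.filter fun w => G.Adj v w).card) :=
          Finset.sum_le_sum h1
      _ = S.card * (S.card - 1) + ∑ w ∈ Sᶜ, (S.filter fun v => G.Adj v w).card := by
          rw [sum_add_distrib, sum_const, smul_eq_mul, h3]
      _ ≤ _ := Nat.add_le_add_left (Finset.sum_le_sum h4) _
  omega

/-- The values `k, …, k` (`p + 1` times), `k - d`, `k - 2 d`, …, and then `s, s, …`. -/
def chain (k s d p i : ℕ) : ℕ := max s (k - d * (i - p))

/-- The chain with the last `k` replaced by `k - e`. -/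
def lst (k s d p e n : ℕ) : Fin n → ℕ := fun i => chain k s d p i - (if (i : ℕ) = p then e else 0)

lemma chain_anti (k s d p : ℕ) {i j : ℕ} (h : i ≤ j) : chain k s d p j ≤ chain k s d p i := by
  unfold chain
  have : d * (i - p) ≤ d * (j - p) := Nat.mul_le_mul_left _ (by omega)
  omega

lemma chain_of_le {k s d p i : ℕ} (hsk : s < k) (h : i ≤ p) : chain k s d p i = k := by
  unfold chain
  rw [show i - p = 0 by omega, mul_zero]
  omega

lemma chain_lt {k s d p i : ℕ} (hsk : s < k) (hd : 1 ≤ d) (h : p < i) :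
    chain k s d p i ≤ k - 1 := by
  unfold chain
  have : d * 1 ≤ d * (i - p) := Nat.mul_le_mul_left _ (by omega)
  omega

lemma inL_lst {k s d p e n : ℕ} (hsk : s < k) (hd : 1 ≤ d) (hdk : d ≤ k - s)
    (hlen : k - s ≤ d * (n - 1 - p)) (he : e ≤ 1) (hep : e = 1 → 1 ≤ p)
    (heven : Even (∑ i, lst k s d p e n i)) : InL k s d (lst k s d p e n) := by
  have hpn : p < n - 1 := by
    by_contra hcon
    rw [show n - 1 - p = 0 by omega, mul_zero] at hlen
    omega
  refine ⟨?_, ⟨⟨⟨0, by omega⟩, ?_⟩, ?_⟩, ⟨⟨⟨n - 1, by omega⟩, ?_⟩, ?_⟩, heven, ?_⟩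
  · intro i j hij
    have hij' : (i : ℕ) ≤ j := hij
    simp only [lst]
    have h1 := chain_anti k s d p hij'
    by_cases hi : (i : ℕ) = p
    · by_cases hj : (j : ℕ) = p
      · rw [if_pos hi, if_pos hj]; omega
      · rw [if_pos hi, if_neg hj, chain_of_le hsk hi.le]
        have := chain_lt (k := k) (s := s) (d := d) (p := p) (i := j) hsk hd (by omega)
        omega
    · rw [if_neg hi]
      omega
  · simp only [lst]
    rw [chain_of_le hsk (Nat.zero_le _)]
    split_ifs with h
    · have : e ≠ 1 := fun h1 => by have := hep h1; omega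
      omega
    · rfl
  · intro i
    simp only [lst]
    have := chain_anti k s d p (Nat.zero_le i)
    rw [chain_of_le hsk (Nat.zero_le _)] at this
    omega
  · simp only [lst]
    rw [if_neg (by omega)]
    unfold chain
    omega
  · intro i
    simp only [lst]
    split_ifs with h
    · rw [chain_of_le hsk h.le]; omega
    · unfold chain; omega
  · intro i j hij
    simp only [lst]
    by_cases hi : (i : ℕ) = p
    · rw [if_pos hi, if_neg (by omega), chain_of_le hsk hi.le]
      unfold chain
      rw [show (j : ℕ) - p = 1 by omega]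
      omega
    · rw [if_neg hi]
      rcases Nat.lt_or_ge (i : ℕ) p with h1 | h1
      · rw [chain_of_le hsk h1.le, chain_of_le hsk (by omega)]
        split_ifs <;> omega
      · rw [if_neg (by omega)]
        unfold chain
        rw [show (j : ℕ) - p = (i - p) + 1 by omega, Nat.mul_add, mul_one]
        omega

lemma sum_chain {k s d p : ℕ} (hsk : s < k) (j : ℕ) (hj : d * j ≤ k - s) :
    2 * ∑ i ∈ range (p + 1 + j), (chain k s d p i : ℤ) =
      2 * ((p : ℤ) + 1 + j) * k - d * j * (j + 1) := by
  induction j with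
  | zero =>
    rw [Finset.sum_congr rfl (fun i hi => by
      rw [chain_of_le hsk (by have := mem_range.mp hi; omega)] : ∀ i ∈ range (p + 1 + 0),
        (chain k s d p i : ℤ) = k), sum_const, card_range, nsmul_eq_mul]
    push_cast
    ring
  | succ j ih =>
    have h1 : d * j ≤ k - s := le_trans (Nat.mul_le_mul_left _ (Nat.le_succ j)) hj
    have h2 := ih h1
    rw [show p + 1 + (j + 1) = (p + 1 + j) + 1 by ring, sum_range_succ, mul_add, h2]
    have h3 : (chain k s d p (p + 1 + j) : ℤ) = k - d * (j + 1) := by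
      unfold chain
      rw [show p + 1 + j - p = j + 1 by omega, max_eq_right (by omega)]
      rw [Nat.cast_sub (by omega)]
      push_cast
      ring
    rw [h3]
    push_cast
    ring

lemma sum_chain_tail {k s d p : ℕ} (q : ℕ) (hq : k - s ≤ d * (q + 1)) (m : ℕ) :
    ∑ i ∈ range (p + 1 + q + m), (chain k s d p i : ℤ) =
      ∑ i ∈ range (p + 1 + q), (chain k s d p i : ℤ) + m * s := by
  induction m with
  | zero => simp
  | succ m ih =>
    rw [show p + 1 + q + (m + 1) = (p + 1 + q + m) + 1 by ring, sum_range_succ, ih]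
    have h3 : chain k s d p (p + 1 + q + m) = s := by
      unfold chain
      have h4 : d * (q + 1) ≤ d * (p + 1 + q + m - p) := Nat.mul_le_mul_left _ (by omega)
      omega
    rw [h3]
    push_cast
    ring

lemma sum_lst (k s d p e n r : ℕ) (hsk : s < k) (he : e ≤ 1) (hrn : r ≤ n) (hpr : p < r) :
    ∑ i ∈ univ.filter (fun i : Fin n => (i : ℕ) < r), (lst k s d p e n i : ℤ) =
      ∑ i ∈ range r, (chain k s d p i : ℤ) - e := by
  have h1 : ∀ i : ℕ, ((chain k s d p i - (if i = p then e else 0) : ℕ) : ℤ) =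
      (chain k s d p i : ℤ) - (if i = p then (e : ℤ) else 0) := by
    intro i
    split_ifs with h
    · rw [Nat.cast_sub]
      rw [chain_of_le hsk h.le]
      omega
    · simp
  rw [Finset.sum_filter]
  simp only [lst]
  rw [Fin.sum_univ_eq_sum_range (fun i => if i < r then
    ((chain k s d p i - (if i = p then e else 0) : ℕ) : ℤ) else 0) n, ← Finset.sum_filter]
  have h2 : (range n).filter (fun i => i < r) = range r := by
    ext i; simp only [mem_filter, mem_range]; omega
  rw [h2, Finset.sum_congr rfl (fun i _ => h1 i), Finset.sum_sub_distrib, Finset.sum_ite_eq',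
    if_pos (mem_range.mpr hpr)]

/-- The list of the maximal length. -/
theorem exists_bad {k s d : ℕ} (hs : 1 ≤ s) (hsk : s < k) (hd : 1 ≤ d) (hdk : d ≤ k - s)
    (hne : ¬ (k = 2 ∧ s = 1 ∧ d = 1)) (n : ℕ) (hn : n + 1 = formula k s d) :
    ∃ a : Fin n → ℕ, InL k s d a ∧ ¬ Graphic a := by
  obtain ⟨hW1, hW2⟩ := W_cast hs hd hsk hdk
  set W : ℤ := ((k : ℤ) + s + 1) ^ 2 / 4 -
        ((jay k s d : ℤ) * ((k : ℤ) - s) - d * jay k s d * jay k s d) with hW
  have hn' : n = ((k + s + 1) ^ 2 / 4 - jay k s d * (k - s - jay k s d * d) - 2) / s := by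
    unfold formula at hn
    omega
  set w := (k + s + 1) ^ 2 / 4 - jay k s d * (k - s - jay k s d * d) with hw
  have hw2 : k * s + 2 ≤ w := by
    have : ((k * s + 2 : ℕ) : ℤ) ≤ (w : ℤ) := by rw [hW1]; push_cast; exact hW2
    exact_mod_cast this
  have hnk : k ≤ n := by
    rw [hn', Nat.le_div_iff_mul_le hs]
    omega
  have hns : s * n + 2 ≤ w := by
    have : s * n ≤ w - 2 := by rw [hn']; exact Nat.mul_div_le _ _
    omega
  rcases Nat.lt_or_ge k n with hkn | hkn
  · -- the main case
    set J := jay k s d with hJ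
    set j := (k - s) / (2 * d) with hj
    have hJ2 := jay_le hd hsk
    have hj2 : 2 * j ≤ k - s := by
      have h1 : 2 * d * j ≤ k - s := Nat.mul_div_le _ _
      have h2 : 2 * 1 * j ≤ 2 * d * j := Nat.mul_le_mul_right _ (Nat.mul_le_mul_left _ hd)
      omega
    have hfac : (J = j ∨ J = j + 1) ∧ d * (j + J) ≤ k - s ∧ k - s ≤ d * (j + J + 1) := by
      have h1 := Nat.div_add_mod (k - s) (2 * d)
      have h2 := Nat.mod_lt (k - s) (show 0 < 2 * d by omega)
      rw [← hj] at h1
      set ρ := (k - s) % (2 * d) with hρ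
      have h3 : J = (2 * d * j + (ρ + d - 1)) / (2 * d) := by
        rw [hJ]
        unfold jay
        congr 1
        omega
      rw [Nat.mul_add_div (by omega)] at h3
      rcases Nat.lt_or_ge (ρ + d - 1) (2 * d) with h4 | h4
      · rw [Nat.div_eq_of_lt h4, add_zero] at h3
        refine ⟨Or.inl h3, ?_, ?_⟩
        · rw [h3]
          calc d * (j + j) = 2 * d * j := by ring
            _ ≤ _ := by omega
        · rw [h3]
          calc k - s ≤ 2 * d * j + d := by omega
            _ = _ := by ring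
      · have h5 : (ρ + d - 1) / (2 * d) = 1 := by
          rw [Nat.div_eq_iff (by omega)]
          omega
        rw [h5] at h3
        refine ⟨Or.inr h3, ?_, ?_⟩
        · rw [h3]
          calc d * (j + (j + 1)) = 2 * d * j + d := by ring
            _ ≤ _ := by omega
        · rw [h3]
          calc k - s ≤ 2 * d * j + 2 * d := by omega
            _ = _ := by ring
    obtain ⟨hJj, hq1, hq2⟩ := hfac
    set r := (k + s + 1) / 2 with hr
    obtain ⟨p, hp⟩ : ∃ p, p + 1 + j = r := ⟨r - 1 - j, by omega⟩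
    have hps : s ≤ p + 1 := by omega
    have hrJ : r + J + 1 ≤ n := by omega
    have hlen : k - s ≤ d * (n - 1 - p) :=
      le_trans hq2 (Nat.mul_le_mul_left _ (by omega))
    -- the violation
    have hrr : (r : ℤ) * (k + s + 1 - r) = ((k : ℤ) + s + 1) ^ 2 / 4 := by
      rcases Nat.even_or_odd' (k + s + 1) with ⟨c, hc | hc⟩
      · have h1 : r = c := by omega
        have h2 : ((k : ℤ) + s + 1) = 2 * c := by exact_mod_cast hc
        rw [h1, h2, show (2 * (c : ℤ)) ^ 2 = 4 * (c * c) by ring,
          Int.mul_ediv_cancel_left _ (by norm_num)]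
        ring
      · have h1 : r = c := by omega
        have h2 : ((k : ℤ) + s + 1) = 2 * c + 1 := by exact_mod_cast hc
        rw [h1, h2, show (2 * (c : ℤ) + 1) ^ 2 = 1 + 4 * (c * c + c) by ring,
          Int.add_mul_ediv_left _ _ (by norm_num)]
        norm_num
        ring
    have hT := sum_chain (k := k) (s := s) (d := d) (p := p) hsk j
      (le_trans (Nat.mul_le_mul_left _ (Nat.le_add_right _ _)) hq1)
    have hU := sum_chain (k := k) (s := s) (d := d) (p := p) hsk (j + J) hq1
    obtain ⟨m, hm⟩ : ∃ m, p + 1 + (j + J) + m = n := ⟨n - (p + 1 + (j + J)), by omega⟩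
    have hV := sum_chain_tail (k := k) (s := s) (d := d) (p := p) (j + J) hq2 m
    rw [hm] at hV
    rw [hp] at hT
    have hvio : 2 * ∑ i ∈ range r, (chain k s d p i : ℤ) - ∑ i ∈ range n, (chain k s d p i : ℤ) -
        r * (r - 1) = W - s * n := by
      have h1 : (n : ℤ) = p + 1 + (j + J) + m := by exact_mod_cast hm.symm
      have h2 : (r : ℤ) = p + 1 + j := by exact_mod_cast hp.symm
      have h3 : 2 * (2 * ∑ i ∈ range r, (chain k s d p i : ℤ) -
          ∑ i ∈ range n, (chain k s d p i : ℤ) - r * (r - 1)) = 2 * (W - s * n) := by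
        rw [hV, hW, ← hrr]
        rcases hJj with h4 | h4
        · have h5 : (J : ℤ) = j := by exact_mod_cast h4
          push_cast at hU
          rw [h5] at hU ⊢
          rw [h5] at h1
          rw [h1]
          rw [h2]
          linear_combination 2 * hT - hU
        · have h5 : (J : ℤ) = j + 1 := by exact_mod_cast h4
          push_cast at hU
          rw [h5] at hU ⊢
          rw [h5] at h1
          rw [h1]
          rw [h2]
          linear_combination 2 * hT - hU
      linarith
    have hWn : (2 : ℤ) ≤ W - s * n := by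
      rw [← hW1]
      have : ((s * n + 2 : ℕ) : ℤ) ≤ (w : ℤ) := by exact_mod_cast hns
      push_cast at this
      linarith
    -- the general construction
    have hmain : ∀ e : ℕ, e ≤ 1 → (e = 1 → 1 ≤ p) →
        Even (∑ i ∈ range n, (chain k s d p i : ℤ) - e) →
        ∃ a : Fin n → ℕ, InL k s d a ∧ ¬ Graphic a := by
      intro e he hep heven
      have hrn : r ≤ n := by omega
      have hpr : p < r := by omega
      have s1 := sum_lst k s d p e n r hsk he hrn hpr
      have s2 := sum_lst k s d p e n n hsk he le_rfl (by omega)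
      have hfull : univ.filter (fun i : Fin n => (i : ℕ) < n) = univ :=
        Finset.filter_true_of_mem fun i _ => i.2
      rw [hfull] at s2
      refine ⟨lst k s d p e n, inL_lst hsk hd hdk hlen he hep ?_, ?_⟩
      · rw [← s2] at heven
        exact_mod_cast heven
      · refine not_graphic_of_violation (univ.filter fun i : Fin n => (i : ℕ) < r) ?_
        have hcard : (univ.filter fun i : Fin n => (i : ℕ) < r).card = r := by
          rw [Fin.card_filter_val_lt]; omega
        rw [hcard]
        have h1 := Finset.sum_add_sum_compl (univ.filter fun i : Fin n => (i : ℕ) < r)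
          (fun i => (lst k s d p e n i : ℤ))
        rw [s2, s1] at h1
        have h2 : ((r * (r - 1) + ∑ v ∈ (univ.filter fun i : Fin n => (i : ℕ) < r)ᶜ,
            lst k s d p e n v : ℕ) : ℤ) <
            ((∑ v ∈ univ.filter fun i : Fin n => (i : ℕ) < r, lst k s d p e n v : ℕ) : ℤ) := by
          have h3 : ((r * (r - 1) : ℕ) : ℤ) = (r : ℤ) * (r - 1) := by
            rw [Nat.cast_mul, Nat.cast_sub (by omega)]; simp
          have he' : (e : ℤ) ≤ 1 := by exact_mod_cast he
          push_cast at s1 ⊢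
          push_cast at h3
          rw [s1]
          have h4 : (r : ℤ) * ((r - 1 : ℕ) : ℤ) = (r : ℤ) * (r - 1) := by
            rw [Nat.cast_sub (by omega)]; simp
          rw [h4]
          linarith
        exact_mod_cast h2
    rcases Nat.lt_or_ge s 2 with hs2 | hs2
    · -- `s = 1`
      have hs1 : s = 1 := by omega
      refine hmain 0 (by norm_num) (by norm_num) ?_
      have h1 : W - s * n = 2 := by
        rw [← hW1, hn', hs1, Nat.div_one]
        have : ((w - 2 : ℕ) : ℤ) = (w : ℤ) - 2 := by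
          rw [Nat.cast_sub (by omega)]; norm_num
        rw [this]
        push_cast
        ring
      rw [h1] at hvio
      obtain ⟨c, hc⟩ := Int.even_mul_pred_self (r : ℤ)
      exact ⟨∑ i ∈ range r, (chain k s d p i : ℤ) - 1 - c, by push_cast; linarith⟩
    · -- `s ≥ 2`
      rcases Int.even_or_odd (∑ i ∈ range n, (chain k s d p i : ℤ)) with hev | hodd
      · exact hmain 0 (by norm_num) (by norm_num) (by simpa using hev)
      · refine hmain 1 le_rfl (fun _ => by omega) ?_
        obtain ⟨c, hc⟩ := hodd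
        exact ⟨c, by push_cast; linarith⟩
  · -- `n = k`
    have hnk' : n = k := le_antisymm hkn hnk
    rcases Nat.lt_or_ge s 2 with hs2 | hs2
    · have hs1 : s = 1 := by omega
      subst hs1
      have hwk : w = k + 2 := by
        rw [Nat.div_one] at hn'
        omega
      -- only `(3, 1, 1)` remains
      have h4 : 4 * (jay k 1 d * (k - 1 - jay k 1 d * d)) ≤ (k - 1) ^ 2 := by
        have h5 : jay k 1 d * (k - 1 - jay k 1 d * d) ≤ jay k 1 d * (k - 1 - jay k 1 d) :=
          Nat.mul_le_mul_left _ (Nat.sub_le_sub_left (Nat.le_mul_of_pos_right _ hd) _)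
        have h6 := jay_le (s := 1) hd hsk
        obtain ⟨c, hc⟩ := Nat.exists_eq_add_of_le h6
        rw [hc] at h5 ⊢
        rw [show 2 * jay k 1 d + c - jay k 1 d = jay k 1 d + c by omega] at h5
        have h6' : (2 * jay k 1 d + c) ^ 2 = 4 * (jay k 1 d * (jay k 1 d + c)) + c * c := by ring
        rw [h6']
        have h6'' := Nat.zero_le (c * c)
        omega
      have h7 : (k + 1 + 1) ^ 2 / 4 * 4 + 3 ≥ (k + 1 + 1) ^ 2 := by omega
      have h8 : (k + 1 + 1) ^ 2 ≤ 4 * w + 4 * (jay k 1 d * (k - 1 - jay k 1 d * d)) + 3 := by omega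
      have h9 : (k + 1 + 1) ^ 2 = (k - 1) ^ 2 + 6 * (k - 1) + 9 := by
        obtain ⟨K, hK⟩ : ∃ K, k = K + 1 := ⟨k - 1, by omega⟩
        rw [hK, Nat.add_sub_cancel]
        ring
      have hk3 : k ≤ 4 := by omega
      have hk34 : k = 2 ∨ k = 3 ∨ k = 4 := by omega
      rcases hk34 with rfl | rfl | rfl
      · exfalso; exact hne ⟨rfl, rfl, by omega⟩
      · have hd12 : d = 1 ∨ d = 2 := by omega
        rcases hd12 with rfl | rfl
        · subst hnk'
          refine ⟨![3, 2, 1], ⟨?_, ⟨⟨0, rfl⟩, ?_⟩, ⟨⟨2, rfl⟩, ?_⟩, ?_, ?_⟩,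
            not_graphic_of_small (k := 3) 0 rfl le_rfl⟩
          all_goals decide
        · exfalso
          have : w = 6 := by rw [hw]; rfl
          omega
      · exfalso
        have hd12 : d = 1 ∨ d = 2 ∨ d = 3 := by omega
        rcases hd12 with rfl | rfl | rfl
        · have : w = 7 := by rw [hw]; rfl
          omega
        · have : w = 8 := by rw [hw]; rfl
          omega
        · have : w = 9 := by rw [hw]; rfl
          omega
    · have hlen : k - s ≤ d * (n - 1 - 1) :=
        le_trans (by omega) (Nat.le_mul_of_pos_left _ hd)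
      have hpar : ∃ e, e ≤ 1 ∧ Even (∑ i, lst k s d 1 e n i) := by
        have s2 : ∀ e, e ≤ 1 → (∑ i, (lst k s d 1 e n i : ℤ)) =
            ∑ i ∈ range n, (chain k s d 1 i : ℤ) - e := by
          intro e he
          have := sum_lst k s d 1 e n n hsk he le_rfl (by omega)
          have hfull : univ.filter (fun i : Fin n => (i : ℕ) < n) = univ :=
            Finset.filter_true_of_mem fun i _ => i.2
          rwa [hfull] at this
        rcases Int.even_or_odd (∑ i ∈ range n, (chain k s d 1 i : ℤ)) with hev | hodd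
        · refine ⟨0, by norm_num, ?_⟩
          have h1 := s2 0 (by norm_num)
          have h2 : Even (∑ i, (lst k s d 1 0 n i : ℤ)) := by rw [h1]; simpa using hev
          exact_mod_cast h2
        · refine ⟨1, le_rfl, ?_⟩
          have h1 := s2 1 le_rfl
          have h2 : Even (∑ i, (lst k s d 1 1 n i : ℤ)) := by
            rw [h1]
            obtain ⟨c, hc⟩ := hodd
            exact ⟨c, by push_cast; linarith⟩
          exact_mod_cast h2
      obtain ⟨e, he, hev⟩ := hpar
      have hL := inL_lst hsk hd hdk hlen he (fun _ => le_rfl) hev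
      obtain ⟨i, hi⟩ := hL.largest.1
      exact ⟨_, hL, not_graphic_of_small i hi hkn⟩

/-! ### The final theorem -/

/-- **Main theorem.**  For all `k > s ≥ 1` and `1 ≤ d ≤ k - s`, let
`J = ⌊(k - s + d - 1) / (2 d)⌋`.  Except for `(k, s, d) = (2, 1, 1)`, where every list of `L(k, s, d)`
is graphic, the graphicality threshold is
`N(k, s, d) = ⌊(⌊(k + s + 1)² / 4⌋ - J (k - s - J d) - 2) / s⌋ + 1`. -/
theorem result (k s d : ℕ) (hs : 1 ≤ s) (hsk : s < k) (hd : 1 ≤ d) (hdk : d ≤ k - s) :
    IsLeast {N : ℕ | ∀ n, N ≤ n → ∀ a : Fin n → ℕ, InL k s d a → Graphic a}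
      (if k = 2 ∧ s = 1 ∧ d = 1 then 0 else
        ((k + s + 1) ^ 2 / 4 - ((k - s + d - 1) / (2 * d)) *
          (k - s - ((k - s + d - 1) / (2 * d)) * d) - 2) / s + 1) := by
  have hup : ∀ n, formula k s d ≤ n → ∀ a : Fin n → ℕ, InL k s d a → Graphic a := by
    intro n hn a ha
    rw [graphic_iff]
    exact erdos_gallai _ a rfl ha.even (eg_of_long hs hsk hd hdk ha hn)
  split_ifs with h
  · refine ⟨?_, fun _ _ => Nat.zero_le _⟩
    intro n _ a ha
    obtain ⟨rfl, rfl, rfl⟩ := h
    rcases Nat.lt_or_ge n 3 with hn | hn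
    · exfalso
      obtain ⟨i, hi⟩ := ha.largest.1
      obtain ⟨j, hj⟩ := ha.smallest.1
      have hij : i ≠ j := fun hh => by rw [hh] at hi; omega
      have hn2 : n = 2 := by
        have h1 := i.2
        have h2 := j.2
        have h3 : (i : ℕ) ≠ j := fun hh => hij (Fin.ext hh)
        omega
      subst hn2
      have hev := ha.even
      rw [Fin.sum_univ_two] at hev
      have h3 : a 0 + a 1 = 3 := by
        fin_cases i <;> fin_cases j
        · exact absurd rfl hij
        · simp at hi hj; omega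
        · simp at hi hj; omega
        · exact absurd rfl hij
      rw [h3] at hev
      exact absurd hev (by decide)
    · exact hup n (le_trans (by decide) hn) a ha
  · refine ⟨hup, ?_⟩
    intro N hN
    by_contra hcon
    push Not at hcon
    have hcon' : N < formula k s d := hcon
    obtain ⟨a, ha, hna⟩ := exists_bad hs hsk hd hdk h (formula k s d - 1) (by omega)
    exact hna (hN _ (by omega) a ha)

end Pool.Agent.Results.MP_5122c5_co.Threshold
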